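import Pool.Agent.H66.AV.TF

/-!
# Both protocols accept
-/

set_option autoImplicit false

namespace Pool.Agent.H84.AVH

open Pool.Agent.H66.AV
open Pool.Agent.H66.IQ

/-- The first examination with the second one at its leaves `true`. -/
def ae {k : ℕ} (T₂ : Exam k) : Exam k → Exam k
  | .leaf true => T₂
  | .leaf false => .leaf false
  | .node M x l r => .node M x (ae T₂ l) (ae T₂ r)

theorem ae_eval {k : ℕ} (O : List Bool → Bool) (T₂ T₁ : Exam k) :
    (ae T₂ T₁).eval O = (T₁.eval O && T₂.eval O) := by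
  induction T₁ with
  | leaf b =>
    cases b
    · simp [ae, Exam.eval]
    · simp [ae, Exam.eval]
  | node M x l r hl hr =>
    simp only [ae, Exam.eval]
    split_ifs with h
    · exact hr
    · exact hl

theorem ae_depth {k : ℕ} (T₂ T₁ : Exam k) : (ae T₂ T₁).depth ≤ T₁.depth + T₂.depth := by
  induction T₁ with
  | leaf b =>
    cases b
    · simp [ae, Exam.depth]
    · simp [ae, Exam.depth]
  | node M x l r hl hr =>
    simp only [ae, Exam.depth]
    omega

theorem ae_small {k : ℕ} (s : ℕ) (T₂ T₁ : Exam k) (h2 : T₂.Small s) (h1 : T₁.Small s) :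
    (ae T₂ T₁).Small s := by
  induction T₁ with
  | leaf b =>
    cases b
    · exact h1
    · exact h2
  | node M x l r hl hr => exact ⟨h1.1, hl h1.2.1, hr h1.2.2⟩

/-- An examination and a protocol. -/
def ag {k : ℕ} (T₁ : Exam k) : Prot k → Prot k
  | .test T₂ => .test (ae T₂ T₁)
  | .coin l r => .coin (ag T₁ l) (ag T₁ r)
  | .say l r => .say (ag T₁ l) (ag T₁ r)

/-- Two protocols. -/
def ap {k : ℕ} (G₂ : Prot k) : Prot k → Prot k
  | .test T₁ => ag T₁ G₂
  | .coin l r => .coin (ap G₂ l) (ap G₂ r)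
  | .say l r => .say (ap G₂ l) (ap G₂ r)

theorem am {a b a' b' c : ℝ} (hc : 0 ≤ c) (h1 : a' = c * a) (h2 : b' = c * b) :
    max a' b' = c * max a b := by
  rcases le_total a b with h | h
  · have h3 : a' ≤ b' := by nlinarith
    rw [max_eq_right h, max_eq_right h3]
    exact h2
  · have h3 : b' ≤ a' := by nlinarith
    rw [max_eq_left h, max_eq_left h3]
    exact h1

theorem val_nonneg {k : ℕ} (O : List Bool → Bool) (G : Prot k) : 0 ≤ G.val O := by
  induction G with
  | test T =>
    unfold Prot.val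
    split_ifs
    · exact zero_le_one
    · exact le_rfl
  | coin l r hl hr =>
    unfold Prot.val
    linarith
  | say l r hl hr => exact hl.trans (le_max_left _ _)

theorem ag_val {k : ℕ} (O : List Bool → Bool) (T₁ : Exam k) (G : Prot k) :
    (ag T₁ G).val O = (Prot.test T₁).val O * G.val O := by
  induction G with
  | test T₂ =>
    simp only [ag, Prot.val, ae_eval]
    cases T₁.eval O <;> cases T₂.eval O <;> simp
  | coin l r hl hr =>
    have h1 : (ag T₁ (.coin l r)).val O = ((ag T₁ l).val O + (ag T₁ r).val O) / 2 := rfl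
    have h2 : (Prot.coin l r).val O = (l.val O + r.val O) / 2 := rfl
    rw [h1, h2]
    linear_combination hl / 2 + hr / 2
  | say l r hl hr =>
    have h1 : (ag T₁ (.say l r)).val O = max ((ag T₁ l).val O) ((ag T₁ r).val O) := rfl
    have h2 : (Prot.say l r).val O = max (l.val O) (r.val O) := rfl
    rw [h1, h2]
    exact am (val_nonneg O _) hl hr

theorem ap_val {k : ℕ} (O : List Bool → Bool) (G₂ G : Prot k) :
    (ap G₂ G).val O = G₂.val O * G.val O := by
  induction G with
  | test T₁ =>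
    have h1 : ap G₂ (.test T₁) = ag T₁ G₂ := rfl
    rw [h1, ag_val, mul_comm]
  | coin l r hl hr =>
    have h1 : (ap G₂ (.coin l r)).val O = ((ap G₂ l).val O + (ap G₂ r).val O) / 2 := rfl
    have h2 : (Prot.coin l r).val O = (l.val O + r.val O) / 2 := rfl
    rw [h1, h2]
    linear_combination hl / 2 + hr / 2
  | say l r hl hr =>
    have h1 : (ap G₂ (.say l r)).val O = max ((ap G₂ l).val O) ((ap G₂ r).val O) := rfl
    have h2 : (Prot.say l r).val O = max (l.val O) (r.val O) := rfl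
    rw [h1, h2]
    exact am (val_nonneg O _) hl hr

theorem ag_moves {k : ℕ} (T₁ : Exam k) (G : Prot k) : (ag T₁ G).moves = G.moves := by
  induction G with
  | test T₂ => rfl
  | coin l r hl hr =>
    have h1 : (ag T₁ (.coin l r)).moves = max (ag T₁ l).moves (ag T₁ r).moves + 1 := rfl
    rw [h1, hl, hr]
    rfl
  | say l r hl hr =>
    have h1 : (ag T₁ (.say l r)).moves = max (ag T₁ l).moves (ag T₁ r).moves + 1 := rfl
    rw [h1, hl, hr]
    rfl

theorem ap_moves {k : ℕ} (G₂ G : Prot k) : (ap G₂ G).moves ≤ G.moves + G₂.moves := by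
  induction G with
  | test T₁ =>
    have h1 : ap G₂ (.test T₁) = ag T₁ G₂ := rfl
    rw [h1, ag_moves]
    exact Nat.le_add_left _ _
  | coin l r hl hr =>
    have h1 : (ap G₂ (.coin l r)).moves = max (ap G₂ l).moves (ap G₂ r).moves + 1 := rfl
    have h2 : (Prot.coin l r).moves = max l.moves r.moves + 1 := rfl
    rw [h1, h2]
    omega
  | say l r hl hr =>
    have h1 : (ap G₂ (.say l r)).moves = max (ap G₂ l).moves (ap G₂ r).moves + 1 := rfl
    have h2 : (Prot.say l r).moves = max l.moves r.moves + 1 := rfl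
    rw [h1, h2]
    omega

theorem ag_bd {k : ℕ} (d₁ d₂ s : ℕ) (T₁ : Exam k) (h : Bd d₁ s (.test T₁)) (G : Prot k)
    (hG : Bd d₂ s G) : Bd (d₁ + d₂) s (ag T₁ G) := by
  induction G with
  | test T₂ =>
    exact ⟨(ae_depth T₂ T₁).trans (Nat.add_le_add h.1 hG.1), ae_small s T₂ T₁ hG.2 h.2⟩
  | coin l r hl hr => exact ⟨hl hG.1, hr hG.2⟩
  | say l r hl hr => exact ⟨hl hG.1, hr hG.2⟩

theorem ap_bd {k : ℕ} (d₁ d₂ s : ℕ) (G₂ : Prot k) (h : Bd d₂ s G₂) (G : Prot k)
    (hG : Bd d₁ s G) : Bd (d₁ + d₂) s (ap G₂ G) := by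
  induction G with
  | test T₁ => exact ag_bd d₁ d₂ s T₁ hG G₂ h
  | coin l r hl hr => exact ⟨hl hG.1, hr hG.2⟩
  | say l r hl hr => exact ⟨hl hG.1, hr hG.2⟩

/-- ANP: both protocols accept. -/
theorem pf_ANP : T_ANP := by
  intro k G₁ G₂
  refine ⟨ap G₂ G₁, ap_moves G₂ G₁, fun d₁ d₂ s h1 h2 => ap_bd d₁ d₂ s G₂ h2 G₁ h1, fun O => ?_⟩
  rw [ap_val, mul_comm]

end Pool.Agent.H84.AVH
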